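import Pool.Agent.Helper30.UB.St

set_option autoImplicit false

/-!
# Project UB, module DKE: the exact sum of the divisor functions
-/

open Polynomial Finset Pool.Agent.Helper15.FC Pool.Agent.Helper30.UB

namespace Pool.Agent.Helper29.UB

private theorem rec1 {F : Type} [Field F] [Fintype F] (hDKR : StDKR) (hCNV : StCNV) (k n : ℕ) :
    ∑ f ∈ Mn F n, dk (k + 1) f = ∑ i ∈ Finset.range (n + 1),
      Fintype.card F ^ i * ∑ h ∈ Mn F (n - i), dk k h := by
  have h1 := hCNV F (fun _ => 1) (fun h => (dk k h : ℂ)) n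
  have h2 : ∀ f ∈ Mn F n, (dk (k + 1) f : ℂ) = ∑ g ∈ Dv f, 1 * (dk k (f / g) : ℂ) := by
    intro f hf
    rw [(hDKR F).2.1 k f (mem_Mn.1 hf).1, Nat.cast_sum]
    exact Finset.sum_congr rfl fun g _ => (one_mul _).symm
  have h3 : ((∑ f ∈ Mn F n, dk (k + 1) f : ℕ) : ℂ) = ((∑ i ∈ Finset.range (n + 1),
      Fintype.card F ^ i * ∑ h ∈ Mn F (n - i), dk k h : ℕ) : ℂ) := by
    push_cast
    rw [Finset.sum_congr rfl h2, h1]
    refine Finset.sum_congr rfl fun i _ => ?_
    rw [Finset.sum_const, card_Mn, nsmul_eq_mul]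
    push_cast
    congr 1
    exact Finset.sum_congr rfl fun h _ => one_mul _
  exact_mod_cast h3

private theorem hockey (k : ℕ) : ∀ n : ℕ,
    ∑ j ∈ Finset.range (n + 1), Nat.choose (j + k - 1) j = Nat.choose (n + (k + 1) - 1) n := by
  intro n
  induction n with
  | zero => simp
  | succ n ih =>
    rw [Finset.sum_range_succ, ih]
    have e1 : n + (k + 1) - 1 = n + k := by omega
    have e2 : n + 1 + k - 1 = n + k := by omega
    have e3 : n + 1 + (k + 1) - 1 = (n + k) + 1 := by omega
    rw [e1, e2, e3, Nat.choose_succ_succ]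

theorem hDKE (hR : StDKR) (hC : StCNV) : StDKE := by
  intro F _ _ k
  induction k with
  | zero =>
    intro n
    rcases Nat.eq_zero_or_pos n with hn | hn
    · subst hn
      have h1 : Mn F 0 = {1} := by
        ext f
        rw [mem_Mn, Finset.mem_singleton]
        constructor
        · rintro ⟨h1, h2⟩
          exact h1.natDegree_eq_zero.1 h2
        · rintro rfl
          exact ⟨monic_one, natDegree_one⟩
      rw [h1, Finset.sum_singleton, (hR F).1.1]
      simp
    · rw [Nat.choose_eq_zero_of_lt (by omega), mul_zero]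
      refine Finset.sum_eq_zero fun f hf => ?_
      refine (hR F).1.2 f (mem_Mn.1 hf).1 ?_
      rintro rfl
      have := (mem_Mn.1 hf).2
      rw [natDegree_one] at this
      omega
  | succ k ih =>
    intro n
    rw [rec1 hR hC, ← hockey k n, Finset.mul_sum, ← Finset.sum_range_reflect]
    refine Finset.sum_congr rfl fun i hi => ?_
    have hin : i ≤ n := by
      have := Finset.mem_range.1 hi
      omega
    have e1 : n + 1 - 1 - i = n - i := by omega
    have e2 : n - (n - i) = i := by omega
    rw [e1, e2, ih i, ← mul_assoc, ← pow_add]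
    congr 2
    omega

end Pool.Agent.Helper29.UB
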